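import Pool.Agent.OH.K1

set_option autoImplicit false

namespace Pool.Agent.OHO

open Pool.Agent.OH

namespace K6Aux

open Finset

/-- the map of zero blocks -/
def piMap (p q : ℕ) (js : Fin p) (jt : Fin q) (i : Fin q) : Fin p :=
  if i.1 < jt.1 then ⟨min i.1 (js.1 - 1), by omega⟩
  else if i.1 = jt.1 then js
  else ⟨min (js.1 + (i.1 - jt.1)) (p - 1), by omega⟩

section pimap
variable (p q : ℕ) (js : Fin p) (jt : Fin q)

lemma piMap_self : piMap p q js jt jt = js := by
  simp [piMap]

lemma piMap_lt (h1' : js.1 = 0 ↔ jt.1 = 0) (i : Fin q) (hi : i < jt) :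
    piMap p q js jt i < js := by
  have hi' : i.1 < jt.1 := hi
  rw [Fin.lt_def]
  unfold piMap
  rw [if_pos hi']
  simp only
  omega

lemma piMap_gt (h2' : p - 1 - js.1 = 0 ↔ q - 1 - jt.1 = 0) (i : Fin q) (hi : jt < i) :
    js < piMap p q js jt i := by
  have hi' : jt.1 < i.1 := hi
  rw [Fin.lt_def]
  unfold piMap
  rw [if_neg (by omega), if_neg (by omega)]
  simp only
  omega

lemma piMap_surj (h1 : js.1 ≤ jt.1) (h2 : p - 1 - js.1 ≤ q - 1 - jt.1) :
    Function.Surjective (piMap p q js jt) := by
  intro k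
  rcases lt_trichotomy k.1 js.1 with hk | hk | hk
  · refine ⟨⟨k.1, by omega⟩, ?_⟩
    apply Fin.ext
    unfold piMap
    simp only
    rw [if_pos (by omega)]
    simp only
    omega
  · refine ⟨jt, ?_⟩
    rw [piMap_self]
    exact Fin.ext hk.symm
  · refine ⟨⟨jt.1 + (k.1 - js.1), by omega⟩, ?_⟩
    apply Fin.ext
    unfold piMap
    simp only
    rw [if_neg (by omega), if_neg (by omega)]
    simp only
    omega

end pimap

lemma zmod2_ne_one {x : ZMod 2} (h : x ≠ 1) : x = 0 := by
  revert h; revert x; decide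

open Classical in
/-- indicator -/
noncomputable def ind (P : Prop) : F4 := if P then 1 else 0

lemma ind_pos {P : Prop} (h : P) : ind P = 1 := if_pos h

lemma ind_neg {P : Prop} (h : ¬ P) : ind P = 0 := if_neg h

lemma ind_congr {P Q : Prop} (h : P ↔ Q) : ind P = ind Q := by
  have : P = Q := propext h
  rw [this]

lemma prod_c2 {ι : Type} (A : Finset ι) (x : ι → ZMod 2) :
    ∏ i ∈ A, F4.c2 (x i) = ind (∀ i ∈ A, x i = 1) := by
  by_cases h : ∀ i ∈ A, x i = 1
  · rw [ind_pos h]
    apply Finset.prod_eq_one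
    intro i hi
    rw [h i hi, map_one]
  · rw [ind_neg h]
    push Not at h
    obtain ⟨i, hi, hx⟩ := h
    apply Finset.prod_eq_zero hi
    rw [zmod2_ne_one hx, map_zero]

section zp
variable {p q : ℕ} (π : Fin q → Fin p) (Z : Prop) (is : Fin p)

open Classical in
/-- the zero part of a monomial after substitution -/
noncomputable def zp (Q : Finset (Fin q)) (x : Fin p → ZMod 2) : F4 :=
  (if Z then F4.c2 (x is) else 1) * ∏ i ∈ Q, F4.c2 (x (π i))

lemma zp_mul (Q : Finset (Fin q)) (c x : Fin p → ZMod 2) :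
    zp π Z is Q (fun i => c i * x i) = zp π Z is Q c * zp π Z is Q x := by
  unfold zp
  simp only [map_mul, Finset.prod_mul_distrib]
  split_ifs
  · ring
  · ring

lemma zp_ind (Q : Finset (Fin q)) (x : Fin p → ZMod 2) :
    zp π Z is Q x = ind ((Z → x is = 1) ∧ ∀ i ∈ Q, x (π i) = 1) := by
  unfold zp
  rw [prod_c2 Q (fun i => x (π i))]
  by_cases hZ : Z
  · by_cases hx : x is = 1
    · simp [hZ, hx]
    · have h1 : ind ((Z → x is = 1) ∧ ∀ i ∈ Q, x (π i) = 1) = 0 :=
        ind_neg (fun h => hx (h.1 hZ))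
      rw [h1, if_pos hZ, zmod2_ne_one hx, map_zero, zero_mul]
  · rw [if_neg hZ, one_mul]
    apply ind_congr
    simp [hZ]

lemma zp_univ (hπ : Function.Surjective π) (x : Fin p → ZMod 2) :
    zp π Z is Finset.univ x = ∏ k, F4.c2 (x k) := by
  rw [zp_ind, prod_c2]
  apply ind_congr
  constructor
  · rintro ⟨_, h⟩ k _
    obtain ⟨i, rfl⟩ := hπ k
    exact h i (Finset.mem_univ _)
  · intro h
    exact ⟨fun _ => h is (Finset.mem_univ _), fun i _ => h (π i) (Finset.mem_univ _)⟩

lemma key_prod (hπ : Function.Surjective π) (i : Fin q) (c : Fin p → ZMod 2) :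
    F4.c2 (c (π i)) * zp π Z is (Finset.univ.erase i) c = ∏ k, F4.c2 (c k) := by
  rw [← zp_univ π Z is hπ]
  unfold zp
  rw [← Finset.mul_prod_erase Finset.univ (fun i => F4.c2 (c (π i))) (Finset.mem_univ i)]
  ring

lemma key_prod' (hπ : Function.Surjective π) (i : Fin q) (c : Fin p → ZMod 2) :
    F4.c2 (c (π i)) * zp π Z is Finset.univ c = ∏ k, F4.c2 (c k) := by
  rw [zp_univ π Z is hπ]
  rw [← Finset.mul_prod_erase Finset.univ (fun i => F4.c2 (c i)) (Finset.mem_univ (π i)),
    ← mul_assoc, ← map_mul]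
  congr 2
  generalize c (π i) = x
  revert x; decide

lemma sum_prod (p : ℕ) : ∑ c : Fin p → ZMod 2, ∏ k, F4.c2 (c k) = 1 := by
  classical
  rw [Finset.sum_eq_single (fun _ => 1)]
  · simp
  · intro c _ hc
    rw [prod_c2, ind_neg]
    intro h
    apply hc
    funext k
    exact h k (Finset.mem_univ _)
  · intro h
    exact absurd (Finset.mem_univ _) h

/-- the flag of a position -/
def fl (i : Fin q) : Prop := (∃ i', i' ≠ i ∧ π i' = π i) ∨ (Z ∧ is = π i)

open Classical in
lemma zp_erase (hπ : Function.Surjective π) (i : Fin q) (x : Fin p → ZMod 2) :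
    zp π Z is (Finset.univ.erase i) x = if fl π Z is i then ∏ k, F4.c2 (x k)
      else ∏ k ∈ Finset.univ.erase (π i), F4.c2 (x k) := by
  rw [zp_ind, prod_c2, prod_c2]
  by_cases hf : fl π Z is i
  · rw [if_pos hf]
    apply ind_congr
    constructor
    · rintro ⟨h1, h2⟩ k _
      obtain ⟨i', rfl⟩ := hπ k
      by_cases hi : i' = i
      · subst hi
        rcases hf with ⟨i'', h3, h4⟩ | ⟨h3, h4⟩
        · rw [← h4]
          exact h2 i'' (Finset.mem_erase.mpr ⟨h3, Finset.mem_univ _⟩)
        · rw [← h4]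
          exact h1 h3
      · exact h2 i' (Finset.mem_erase.mpr ⟨hi, Finset.mem_univ _⟩)
    · intro h
      exact ⟨fun _ => h is (Finset.mem_univ _), fun i _ => h (π i) (Finset.mem_univ _)⟩
  · rw [if_neg hf]
    apply ind_congr
    unfold fl at hf
    push Not at hf
    constructor
    · rintro ⟨h1, h2⟩ k hk
      obtain ⟨i', rfl⟩ := hπ k
      have hi : i' ≠ i := by
        rintro rfl
        exact (Finset.mem_erase.mp hk).1 rfl
      exact h2 i' (Finset.mem_erase.mpr ⟨hi, Finset.mem_univ _⟩)
    · intro h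
      refine ⟨fun hZ => h is (Finset.mem_erase.mpr ⟨hf.2 hZ, Finset.mem_univ _⟩), fun i' hi' => ?_⟩
      exact h (π i') (Finset.mem_erase.mpr ⟨hf.1 i' (Finset.mem_erase.mp hi').1, Finset.mem_univ _⟩)

end zp

lemma c2_pow (x : ZMod 2) (k : ℕ) (hk : 1 ≤ k) : F4.c2 x ^ k = F4.c2 x := by
  have h : x = 0 ∨ x = 1 := by revert x; decide
  rcases h with rfl | rfl
  · rw [map_zero, zero_pow (by omega)]
  · rw [map_one, one_pow]

/-- the transpose of a linear map -/
def transp {m n : ℕ} (ψ : E m →ₗ[ZMod 3] E n) : E n →+ E m where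
  toFun e k := dot (ψ (Pi.single k 1)) e
  map_zero' := by funext k; simp [dot]
  map_add' x y := by funext k; simp only [dot, dotProduct_add, Pi.add_apply]

lemma dot_transp {m n : ℕ} (ψ : E m →ₗ[ZMod 3] E n) (v : E m) (e : E n) :
    dot v (transp ψ e) = dot (ψ v) e := by
  have h : ψ v = ∑ k, v k • ψ (Pi.single k 1) := by
    conv_lhs => rw [← Finset.univ_sum_single v]
    rw [map_sum]
    apply Finset.sum_congr rfl
    intro k _
    rw [← map_smul]
    congr 1
    ext j
    simp [Pi.single_apply]
  rw [h]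
  simp only [dot, transp, dotProduct, AddMonoidHom.coe_mk, ZeroHom.coe_mk, Finset.sum_apply,
    Pi.smul_apply, smul_eq_mul, Finset.mul_sum, Finset.sum_mul]
  rw [Finset.sum_comm]
  apply Finset.sum_congr rfl
  intro k _
  apply Finset.sum_congr rfl
  intro j _
  ring

end K6Aux

/-- (5.3): from a block reduction to a good pair (zero blocks: `π` and `i*`). -/
theorem gp_comb (s t : Shape) (a : s.J → ℕ) (b : t.J → ℕ) (ha : Exp a) (hb : Exp b)
    (ψ : E t.n →ₗ[ZMod 3] E s.n) (hBR : BlockRed s.v a t.v b ψ) (js : Fin s.p) (jt : Fin t.p)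
    (τ : Bool) (h1 : js.1 ≤ jt.1) (h1' : js.1 = 0 ↔ jt.1 = 0)
    (h2 : s.p - 1 - js.1 ≤ t.p - 1 - jt.1) (h2' : s.p - 1 - js.1 = 0 ↔ t.p - 1 - jt.1 = 0)
    (hτ : τ = true → 2 ≤ s.p) :
    ∃ (ρ : E s.n →+ E t.n) (φ : s.W →+ t.W), Equi s t ρ φ ∧
      ∀ c d : Fin t.p → F4, (∀ i, jt < i → c i = 0 ∧ d i = 0) → (τ = false → c jt = 0) →
        ∃ c' d' : Fin s.p → F4,
          comp s a (fun y u => Fcd t b c d (φ y) (φ u)) = Fcd s a c' d' ∧
          (∀ i, js < i → c' i = 0 ∧ d' i = 0) ∧ (τ = true → c' js = c jt) ∧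
          (τ = false → c' js = 0 ∧ d' js = d jt) := by
  classical
  obtain ⟨φJ, hφ0, hφe, hφs⟩ := hBR
  -- the element `i*`
  obtain ⟨is, his⟩ : ∃ is : Fin s.p, τ = true → is ≠ js := by
    rcases τ with _ | _
    · exact ⟨js, fun h => absurd h (by simp)⟩
    · have h2p := hτ rfl
      by_cases hj : js.1 = 0
      · refine ⟨⟨1, by omega⟩, fun _ h => ?_⟩
        have := congrArg Fin.val h
        simp only at this
        omega
      · refine ⟨⟨0, by omega⟩, fun _ h => ?_⟩
        have := congrArg Fin.val h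
        simp only at this
        omega
  set π := K6Aux.piMap s.p t.p js jt with hπdef
  have hπs : Function.Surjective π := K6Aux.piMap_surj s.p t.p js jt h1 h2
  have hπj : π jt = js := K6Aux.piMap_self s.p t.p js jt
  have hπl : ∀ i, i < jt → π i < js := fun i hi => K6Aux.piMap_lt s.p t.p js jt h1' i hi
  have hπg : ∀ i, jt < i → js < π i := fun i hi => K6Aux.piMap_gt s.p t.p js jt h2' i hi
  clear_value π
  set Z : Prop := ∃ j : t.J, ψ (t.v j) = 0 with hZ
  let φ : s.W →+ t.W :=
    { toFun := fun x => (fun j => φJ x.1 j + (if ψ (t.v j) = 0 then F4.c2 (x.2 is) else 0),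
        fun i => x.2 (π i))
      map_zero' := by
        ext1
        · funext j; simp
        · funext i; simp
      map_add' := by
        intro x y
        ext1
        · funext j
          simp only [Prod.fst_add, Prod.snd_add, map_add, Pi.add_apply]
          split_ifs
          · ring
          · ring
        · funext i; simp }
  have hφ1 : ∀ x : s.W, ∀ j, (φ x).1 j = φJ x.1 j + (if ψ (t.v j) = 0 then F4.c2 (x.2 is) else 0) :=
    fun x j => rfl
  have hφ2 : ∀ x : s.W, ∀ i, (φ x).2 i = x.2 (π i) := fun x i => rfl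
  clear_value φ
  -- the function of the nonzero blocks
  set G : (s.J → F4) → F4 := fun x =>
    ∏ j ∈ Finset.univ.filter (fun j => ψ (t.v j) ≠ 0), φJ x j ^ b j with hG
  have hGs : ∑ c : s.J → F4, (∏ B, c B ^ (3 - a B)) * G c = 1 := by
    have key : ∀ (i₁ i₂ : Fintype (s.J → F4)) (f g : (s.J → F4) → F4), (∀ x, f x = g x) →
        @Finset.sum _ _ _ (@Finset.univ _ i₁) f = @Finset.sum _ _ _ (@Finset.univ _ i₂) g := by
      intro i₁ i₂ f g hfg
      rw [Subsingleton.elim i₁ i₂]
      exact Finset.sum_congr rfl fun x _ => hfg x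
    refine Eq.trans (key _ _ _ _ fun c => ?_) hφs
    rw [hG]
  have hmono : ∀ (Q : Finset (Fin t.p)) (x : s.W),
      mono t b Q (φ x) = G x.1 * K6Aux.zp π Z is Q x.2 := by
    intro Q x
    unfold mono K6Aux.zp
    rw [← mul_assoc]
    congr 1
    · rw [← Finset.prod_filter_mul_prod_filter_not Finset.univ (fun j => ψ (t.v j) ≠ 0)]
      congr 1
      · apply Finset.prod_congr rfl
        intro j hj
        rw [hφ1, if_neg (Finset.mem_filter.mp hj).2, add_zero]
      · have h3 : ∀ j ∈ Finset.univ.filter (fun j => ¬ ψ (t.v j) ≠ 0),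
            (φ x).1 j ^ b j = F4.c2 (x.2 is) := by
          intro j hj
          have hj0 : ψ (t.v j) = 0 := not_not.mp (Finset.mem_filter.mp hj).2
          rw [hφ1, if_pos hj0, hφ0 j x.1 hj0, zero_add, K6Aux.c2_pow _ _ (hb j).1]
        rw [Finset.prod_congr rfl h3, Finset.prod_const]
        by_cases hZZ : Z
        · rw [if_pos hZZ]
          apply K6Aux.c2_pow
          obtain ⟨j, hj⟩ := hZZ
          apply Finset.card_pos.mpr
          exact ⟨j, Finset.mem_filter.mpr ⟨Finset.mem_univ _, not_not.mpr hj⟩⟩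
        · rw [if_neg hZZ]
          have : Finset.univ.filter (fun j => ¬ ψ (t.v j) ≠ 0) = ∅ := by
            apply Finset.filter_eq_empty_iff.mpr
            intro j _ hj
            exact hZZ ⟨j, not_not.mp hj⟩
          rw [this]
          simp
    · apply Finset.prod_congr rfl
      intro i _
      rw [hφ2]
  refine ⟨K6Aux.transp ψ, φ, ?_, ?_⟩
  · intro e x
    ext1
    · funext j
      rw [hφ1]
      show φJ (fun j => F4.chi (dot (s.v j) e) * x.1 j) j + _ =
        F4.chi (dot (t.v j) (K6Aux.transp ψ e)) * (φ x).1 j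
      rw [hφe, K6Aux.dot_transp, hφ1]
      show _ + (if ψ (t.v j) = 0 then F4.c2 (x.2 is) else 0) = _
      by_cases hj : ψ (t.v j) = 0
      · rw [if_pos hj, hj]
        simp [dot, F4.chi_zero]
      · rw [if_neg hj]
        ring
    · funext i
      rw [hφ2]
      show x.2 (π i) = (φ x).2 i
      rw [hφ2]
  · intro c d hcd hc
    have hfib : Finset.univ.filter (fun i => π i = js) = {jt} := by
      ext i
      simp only [Finset.mem_filter, Finset.mem_univ, true_and, Finset.mem_singleton]
      constructor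
      · intro hik
        rcases lt_trichotomy i jt with h | h | h
        · exact absurd hik (hπl i h).ne
        · exact h
        · exact absurd hik (hπg i h).ne'
      · rintro rfl
        exact hπj
    refine ⟨fun k => ∑ i ∈ Finset.univ.filter (fun i => π i = k),
        (if K6Aux.fl π Z is i then 0 else c i),
      fun k => ∑ i ∈ Finset.univ.filter (fun i => π i = k),
        (d i + if K6Aux.fl π Z is i then c i else 0), ?_, ?_, ?_, ?_⟩
    · funext y u
      have hF : ∀ x : s.W, Fcd t b c d (φ (scal s x y)) (φ (scal s x u)) =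
          (G (fun j => x.1 j * u.1 j) * ∏ k, F4.c2 (x.2 k)) *
            ∑ i, F4.c2 (y.2 (π i)) * (c i * K6Aux.zp π Z is (Finset.univ.erase i) u.2 +
              d i * K6Aux.zp π Z is Finset.univ u.2) := by
        intro x
        unfold Fcd
        rw [Finset.mul_sum]
        apply Finset.sum_congr rfl
        intro i _
        rw [hφ2, hmono, hmono]
        show F4.c2 (x.2 (π i) * y.2 (π i)) *
          (c i * (G (fun j => x.1 j * u.1 j) *
            K6Aux.zp π Z is (Finset.univ.erase i) (fun k => x.2 k * u.2 k)) +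
          d i * (G (fun j => x.1 j * u.1 j) *
            K6Aux.zp π Z is Finset.univ (fun k => x.2 k * u.2 k))) = _
        rw [K6Aux.zp_mul, K6Aux.zp_mul, map_mul]
        have e1 := K6Aux.key_prod π Z is hπs i x.2
        have e2 := K6Aux.key_prod' π Z is hπs i x.2
        calc _ = G (fun j => x.1 j * u.1 j) * F4.c2 (y.2 (π i)) *
              (c i * ((F4.c2 (x.2 (π i)) * K6Aux.zp π Z is (Finset.univ.erase i) x.2) *
                K6Aux.zp π Z is (Finset.univ.erase i) u.2) +
              d i * ((F4.c2 (x.2 (π i)) * K6Aux.zp π Z is Finset.univ x.2) *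
                K6Aux.zp π Z is Finset.univ u.2)) := by ring
          _ = _ := by rw [e1, e2]; ring
      have hL : comp s a (fun y u => Fcd t b c d (φ y) (φ u)) y u =
          (∏ j, u.1 j ^ a j) * ∑ i, F4.c2 (y.2 (π i)) *
            (c i * K6Aux.zp π Z is (Finset.univ.erase i) u.2 +
              d i * K6Aux.zp π Z is Finset.univ u.2) := by
        unfold comp
        simp only [hF]
        generalize (∑ i, F4.c2 (y.2 (π i)) *
            (c i * K6Aux.zp π Z is (Finset.univ.erase i) u.2 +
              d i * K6Aux.zp π Z is Finset.univ u.2)) = K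
        rw [Fintype.sum_prod_type]
        have e3 : ∀ x1 : s.J → F4, ∑ x2 : Fin s.p → ZMod 2,
            (∏ j, x1 j ^ (3 - a j)) * ((G (fun j => x1 j * u.1 j) * ∏ k, F4.c2 (x2 k)) * K)
            = ((∏ j, x1 j ^ (3 - a j)) * G (fun j => x1 j * u.1 j)) * K := by
          intro x1
          have e4 : ∀ x2 : Fin s.p → ZMod 2,
              (∏ j, x1 j ^ (3 - a j)) * ((G (fun j => x1 j * u.1 j) * ∏ k, F4.c2 (x2 k)) * K)
              = (((∏ j, x1 j ^ (3 - a j)) * G (fun j => x1 j * u.1 j)) * K) *
                ∏ k, F4.c2 (x2 k) := by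
            intro x2
            ring
          rw [Finset.sum_congr rfl (fun x2 _ => e4 x2), ← Finset.mul_sum, K6Aux.sum_prod, mul_one]
        rw [Finset.sum_congr rfl (fun x1 _ => e3 x1), ← Finset.sum_mul,
          coef_hom s.J a ha G u.1, hGs, one_mul]
      rw [hL]
      unfold Fcd mono
      have hR : ∀ k : Fin s.p, F4.c2 (y.2 k) *
          ((∑ i ∈ Finset.univ.filter (fun i => π i = k),
            (if K6Aux.fl π Z is i then 0 else c i)) *
            ((∏ j, u.1 j ^ a j) * ∏ i ∈ Finset.univ.erase k, F4.c2 (u.2 i)) +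
          (∑ i ∈ Finset.univ.filter (fun i => π i = k),
            (d i + if K6Aux.fl π Z is i then c i else 0)) *
            ((∏ j, u.1 j ^ a j) * ∏ i, F4.c2 (u.2 i))) =
          ∑ i ∈ Finset.univ.filter (fun i => π i = k), (∏ j, u.1 j ^ a j) *
            (F4.c2 (y.2 (π i)) *
            (c i * K6Aux.zp π Z is (Finset.univ.erase i) u.2 +
              d i * K6Aux.zp π Z is Finset.univ u.2)) := by
        intro k
        rw [Finset.sum_mul, Finset.sum_mul, ← Finset.sum_add_distrib, Finset.mul_sum]
        apply Finset.sum_congr rfl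
        intro i hi
        have hik : π i = k := (Finset.mem_filter.mp hi).2
        rw [K6Aux.zp_erase π Z is hπs, K6Aux.zp_univ π Z is hπs, hik]
        split_ifs
        · ring
        · ring
      rw [Finset.sum_congr rfl (fun k _ => hR k), Finset.mul_sum]
      rw [Finset.sum_fiberwise]
    · intro k hk
      have hz : ∀ i ∈ Finset.univ.filter (fun i => π i = k), c i = 0 ∧ d i = 0 := by
        intro i hi
        apply hcd
        have hik : π i = k := (Finset.mem_filter.mp hi).2
        rcases lt_trichotomy i jt with h | h | h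
        · have := hπl i h
          rw [hik] at this
          exact absurd this (not_lt.mpr hk.le)
        · rw [h, hπj] at hik
          exact absurd hik hk.ne
        · exact h
      constructor
      · apply Finset.sum_eq_zero
        intro i hi
        rw [(hz i hi).1, ite_self]
      · apply Finset.sum_eq_zero
        intro i hi
        rw [(hz i hi).1, (hz i hi).2, ite_self, add_zero]
    · intro ht
      show (∑ i ∈ Finset.univ.filter (fun i => π i = js), _) = _
      rw [hfib, Finset.sum_singleton, if_neg]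
      rintro (⟨i', h3, h4⟩ | ⟨_, h4⟩)
      · rw [hπj] at h4
        have : i' ∈ Finset.univ.filter (fun i => π i = js) :=
          Finset.mem_filter.mpr ⟨Finset.mem_univ _, h4⟩
        rw [hfib, Finset.mem_singleton] at this
        exact h3 this
      · rw [hπj] at h4
        exact his ht h4
    · intro ht
      constructor
      · show (∑ i ∈ Finset.univ.filter (fun i => π i = js), _) = _
        rw [hfib, Finset.sum_singleton, hc ht, ite_self]
      · show (∑ i ∈ Finset.univ.filter (fun i => π i = js), _) = _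
        rw [hfib, Finset.sum_singleton, hc ht, ite_self, add_zero]

end Pool.Agent.OHO
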