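import Pool.Agent.OHO.K7
import Pool.Agent.OH.K2

set_option autoImplicit false

namespace Pool.Agent.OHO

open Pool.Agent.OH

namespace K8aux

/-- Bound for the lead. -/
def LB {p : ℕ} (c d : Fin p → F4) (m : ℕ) : Prop :=
  ∀ i : Fin p, (c i ≠ 0 → 2 * i.1 + 2 ≤ m) ∧ (d i ≠ 0 → 2 * i.1 + 1 ≤ m)

theorem Fcd_zero (s : Shape) (a : s.J → ℕ) (c d : Fin s.p → F4) (hc : ∀ i, c i = 0)
    (hd : ∀ i, d i = 0) : Fcd s a c d = 0 := by
  funext y u
  simp [Fcd, hc, hd]

/-- An element with minimal lead. -/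
theorem step (rk : ℕ → Ordinal.{0}) (X : Set (Finset ℕ)) (D D' : Fam)
    (hD : IsGoodFam rk X D) (hD' : IsGoodFam rk X D') (hne : ∃ s, ¬ D s ≤ D' s) :
    ∃ (s : Shape) (a : s.J → ℕ) (j : Fin s.p) (τ : Bool) (c d : Fin s.p → F4),
      Spanning s.v ∧ (∀ j, PosV (s.v j)) ∧ Exp a ∧ Fcd s a c d ∈ D s ∧ Fcd s a c d ∉ D' s ∧
      (∀ i, j < i → c i = 0 ∧ d i = 0) ∧ (τ = true → c j ≠ 0) ∧
      (τ = false → c j = 0 ∧ d j ≠ 0) ∧
      (∀ c' d' : Fin s.p → F4, Fcd s a c' d' ∈ D s → (∀ i, j < i → c' i = 0 ∧ d' i = 0) →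
        (τ = true → c' j = 0) → (τ = false → c' j = 0 ∧ d' j = 0) → Fcd s a c' d' ∈ D' s) := by
  classical
  have h0 : ∃ s : Shape, Spanning s.v ∧ (∀ j, PosV (s.v j)) ∧ ∃ a : s.J → ℕ, Exp a ∧
      ∃ c d, Fcd s a c d ∈ D s ∧ Fcd s a c d ∉ D' s := by
    by_contra hcon
    obtain ⟨s, hs⟩ := hne
    refine hs (determined rk X D' D hD' hD ?_ s)
    intro s hsp hpos a ha c d hcd
    by_contra hnot
    exact hcon ⟨s, hsp, hpos, a, ha, c, d, hcd, hnot⟩
  obtain ⟨s, hsp, hpos, a, ha, c0, d0, h1, h2⟩ := h0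
  have hex : ∃ m : ℕ, ∃ c d, Fcd s a c d ∈ D s ∧ Fcd s a c d ∉ D' s ∧ LB c d m := by
    refine ⟨2 * s.p + 2, c0, d0, h1, h2, fun i => ⟨fun _ => ?_, fun _ => ?_⟩⟩
    · have := i.2; omega
    · have := i.2; omega
  obtain ⟨c, d, hm1, hm2, hm3⟩ := Nat.find_spec hex
  have hmin : ∀ m' < Nat.find hex, ¬ ∃ c d, Fcd s a c d ∈ D s ∧ Fcd s a c d ∉ D' s ∧ LB c d m' :=
    fun m' hm' => Nat.find_min hex hm'
  revert hm3 hmin
  generalize Nat.find hex = m
  intro hm3 hmin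
  have hmpos : 0 < m := by
    rcases Nat.eq_zero_or_pos m with h | h
    · exfalso
      apply hm2
      rw [Fcd_zero s a c d (fun i => by
          by_contra hne; have := (hm3 i).1 hne; omega) (fun i => by
          by_contra hne; have := (hm3 i).2 hne; omega)]
      exact (D' s).zero_mem
    · exact h
  have hnot : ¬ LB c d (m - 1) := fun h => hmin (m - 1) (by omega) ⟨c, d, hm1, hm2, h⟩
  have hj : ∃ i : Fin s.p, (c i ≠ 0 ∧ 2 * i.1 + 2 = m) ∨ (d i ≠ 0 ∧ 2 * i.1 + 1 = m) := by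
    by_contra hcon
    push Not at hcon
    apply hnot
    intro i
    refine ⟨fun h => ?_, fun h => ?_⟩
    · have h3 := (hm3 i).1 h
      have h4 := (hcon i).1 h
      omega
    · have h3 := (hm3 i).2 h
      have h4 := (hcon i).2 h
      omega
  obtain ⟨j, hj⟩ := hj
  rcases hj with ⟨hcj, hjm⟩ | ⟨hdj, hjm⟩
  · refine ⟨s, a, j, true, c, d, hsp, hpos, ha, hm1, hm2, ?_, fun _ => hcj,
      fun h => by simp at h, ?_⟩
    · intro i hi
      have hi' : j.1 < i.1 := hi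
      refine ⟨?_, ?_⟩
      · by_contra hne; have := (hm3 i).1 hne; omega
      · by_contra hne; have := (hm3 i).2 hne; omega
    · intro c' d' hin hz hc' _
      by_contra hnin
      refine hmin (m - 1) (by omega) ⟨c', d', hin, hnin, fun i => ⟨fun hne => ?_, fun hne => ?_⟩⟩
      · rcases lt_trichotomy i j with h | h | h
        · have : i.1 < j.1 := h
          omega
        · subst h; exact absurd (hc' rfl) hne
        · exact absurd (hz i h).1 hne
      · rcases lt_or_ge j i with h | h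
        · exact absurd (hz i h).2 hne
        · have : i.1 ≤ j.1 := h
          omega
  · have hcj : c j = 0 := by
      by_contra hne; have := (hm3 j).1 hne; omega
    refine ⟨s, a, j, false, c, d, hsp, hpos, ha, hm1, hm2, ?_, fun h => by simp at h,
      fun _ => ⟨hcj, hdj⟩, ?_⟩
    · intro i hi
      have hi' : j.1 < i.1 := hi
      refine ⟨?_, ?_⟩
      · by_contra hne; have := (hm3 i).1 hne; omega
      · by_contra hne; have := (hm3 i).2 hne; omega
    · intro c' d' hin hz _ hc'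
      by_contra hnin
      refine hmin (m - 1) (by omega) ⟨c', d', hin, hnin, fun i => ⟨fun hne => ?_, fun hne => ?_⟩⟩
      · rcases lt_trichotomy i j with h | h | h
        · have : i.1 < j.1 := h
          omega
        · subst h; exact absurd (hc' rfl).1 hne
        · exact absurd (hz i h).1 hne
      · rcases lt_trichotomy i j with h | h | h
        · have : i.1 < j.1 := h
          omega
        · subst h; exact absurd (hc' rfl).2 hne
        · exact absurd (hz i h).2 hne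

theorem exists_seq (P : ℕ → ℕ → Prop) (h : ∀ k, ∃ k', k ≤ k' ∧ P k k') :
    ∃ g : ℕ → ℕ, Monotone g ∧ ∀ t, P (g t) (g (t + 1)) := by
  choose f hf hP using h
  refine ⟨fun t => f^[t] 0, monotone_nat_of_le_succ fun t => ?_, fun t => ?_⟩
  · simp only [Function.iterate_succ_apply']
    exact hf _
  · simp only [Function.iterate_succ_apply']
    exact hP _

end K8aux

open K8aux

/-- (5.2) -/
theorem fam_dcc (rk : ℕ → Ordinal.{0}) (hrk : Function.Injective rk) (X : Set (Finset ℕ))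
    (hX : ∀ D ∈ X, IsDS rk D) (D : ℕ → Fam) (hD : ∀ k, IsGoodFam rk X (D k))
    (hanti : ∀ k k', k ≤ k' → ∀ s, D k' s ≤ D k s) :
    ∃ k₀, ∀ k, k₀ ≤ k → ∀ s, D k s = D k₀ s := by
  classical
  by_contra hcon
  push Not at hcon
  have h1 : ∀ k, ∃ k', k ≤ k' ∧ ∃ s, ¬ D k s ≤ D k' s := by
    intro k
    obtain ⟨k', hk', s, hs⟩ := hcon k
    exact ⟨k', hk', s, fun hle => hs (le_antisymm (hanti k k' hk' s) hle)⟩
  obtain ⟨g, hg, hgs⟩ := exists_seq _ h1
  have h2 := fun t => step rk X (D (g t)) (D (g (t + 1))) (hD _) (hD _) (hgs t)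
  choose s a j τ c d hsp hpos ha hin hnin hz ht hf hmin using h2
  obtain ⟨t₁, t₂, hlt, hττ, ρ, φ, hE, hφ⟩ := good_pair rk hrk X hX s hsp hpos a ha j τ (by
    intro t
    refine ⟨Fcd (s t) (a t) (c t) (d t) (0, Pi.single (j t) 1),
      ((hD (g t)).form _ _ (hin t)).2.2 _, ?_⟩
    have h3 := cfQ_Fcd (s t) (a t) (ha t) (c t) (d t) (j t)
    rcases hτ : τ t with _ | _
    · simp only [Bool.false_eq_true, if_false]
      rw [h3.2]
      exact (hf t hτ).2
    · simp only [if_true]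
      rw [h3.1]
      exact ht t hτ)
  obtain ⟨c', d', hcomp, hz', ht', hf'⟩ := hφ (c t₂) (d t₂) (hz t₂) (fun h => (hf t₂ h).1)
  have hG : Fcd (s t₁) (a t₁) c' d' ∈ D (g (t₁ + 1)) (s t₁) := by
    rw [← hcomp]
    refine hanti (g (t₁ + 1)) (g t₂) (hg (by omega)) _ ?_
    exact comp_mem rk X (D (g t₂)) (hD _) _ _ _ ((hD (g t₂)).pull _ _ ρ φ hE _ (hin t₂))
  have hG' : Fcd (s t₁) (a t₁) c' d' ∈ D (g t₁) (s t₁) :=
    hanti _ _ (hg (Nat.le_succ t₁)) _ hG
  have key : ∀ r : F4, Fcd (s t₁) (a t₁) (c t₁ + r • c') (d t₁ + r • d') =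
      Fcd (s t₁) (a t₁) (c t₁) (d t₁) + r • Fcd (s t₁) (a t₁) c' d' := by
    intro r
    rw [Fcd_add, Fcd_smul]
  have fin : ∀ r : F4, (τ t₁ = true → (c t₁ + r • c') (j t₁) = 0) →
      (τ t₁ = false → (c t₁ + r • c') (j t₁) = 0 ∧ (d t₁ + r • d') (j t₁) = 0) → False := by
    intro r hr1 hr2
    have h5 := hmin t₁ (c t₁ + r • c') (d t₁ + r • d') (by
      rw [key]
      exact (D (g t₁) (s t₁)).add_mem (hin t₁) ((D (g t₁) (s t₁)).smul_mem r hG')) (by
      intro i hi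
      simp [(hz t₁ i hi).1, (hz t₁ i hi).2, (hz' i hi).1, (hz' i hi).2]) hr1 hr2
    rw [key] at h5
    apply hnin t₁
    exact ((D (g (t₁ + 1)) (s t₁)).add_mem_iff_left
      ((D (g (t₁ + 1)) (s t₁)).smul_mem r hG)).1 h5
  rcases hτ : τ t₁ with _ | _
  · have hτ2 : τ t₂ = false := by rw [← hττ, hτ]
    have hd2 := (hf t₂ hτ2).2
    have h6 := hf' hτ2
    refine fin (-(d t₁ (j t₁)) / d' (j t₁)) (fun h => by rw [hτ] at h; simp at h) (fun _ => ?_)
    have h7 : d' (j t₁) ≠ 0 := by rw [h6.2]; exact hd2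
    refine ⟨?_, ?_⟩
    · simp [(hf t₁ hτ).1, h6.1]
    · simp only [Pi.add_apply, Pi.smul_apply, smul_eq_mul]
      rw [div_mul_cancel₀ _ h7]; ring
  · have hτ2 : τ t₂ = true := by rw [← hττ, hτ]
    have hc2 := ht t₂ hτ2
    have h6 := ht' hτ2
    refine fin (-(c t₁ (j t₁)) / c' (j t₁)) (fun _ => ?_) (fun h => by rw [hτ] at h; simp at h)
    have h7 : c' (j t₁) ≠ 0 := by rw [h6]; exact hc2
    simp only [Pi.add_apply, Pi.smul_apply, smul_eq_mul]
    rw [div_mul_cancel₀ _ h7]; ring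

end Pool.Agent.OHO
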