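import Pool.Agent.OH.L1
import Pool.Agent.OH.LG2
import Pool.Agent.OH.LG3
import Pool.Agent.OH.DM2
import Pool.Agent.OHO.K8

set_option autoImplicit false

namespace Pool.Agent.OHO

open Pool.Agent.OH

/-- Pointwise intersection. -/
def R1inf (M B : TIF) : TIF where
  S l n := M.S l n ⊓ B.S l n
  normal := by
    rintro l n w ⟨h1, h2⟩ t
    exact ⟨M.normal l n w h1 t, B.normal l n w h2 t⟩
  thom_mem := by
    rintro l n l' n' ρ t w ⟨h1, h2⟩
    exact ⟨M.thom_mem l n l' n' ρ t w h1, B.thom_mem l n l' n' ρ t w h2⟩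

/-- Pointwise product. -/
def R1sup (M B : TIF) : TIF where
  S l n := M.S l n ⊔ B.S l n
  normal := by
    intro l n w hw t
    have h : M.S l n ⊔ B.S l n ≤ (M.S l n ⊔ B.S l n).comap (MulAut.conj t).toMonoidHom := by
      refine sup_le (fun x hx => ?_) (fun x hx => ?_)
      · rw [Subgroup.mem_comap]
        exact (le_sup_left : M.S l n ≤ M.S l n ⊔ B.S l n) (M.normal l n x hx t)
      · rw [Subgroup.mem_comap]
        exact (le_sup_right : B.S l n ≤ M.S l n ⊔ B.S l n) (B.normal l n x hx t)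
    exact h hw
  thom_mem := by
    intro l n l' n' ρ t w hw
    have h : M.S l n ⊔ B.S l n ≤ (M.S l' n' ⊔ B.S l' n').comap (thom ρ t) := by
      refine sup_le (fun x hx => ?_) (fun x hx => ?_)
      · rw [Subgroup.mem_comap]
        exact (le_sup_left : M.S l' n' ≤ M.S l' n' ⊔ B.S l' n') (M.thom_mem l n l' n' ρ t x hx)
      · rw [Subgroup.mem_comap]
        exact (le_sup_right : B.S l' n' ≤ M.S l' n' ⊔ B.S l' n') (B.thom_mem l n l' n' ρ t x hx)
    exact h hw

/-- Section 9: layering (modular law). -/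
theorem acc_trans (A B C : TIF) (hAB : A ≤ B) (hBC : B ≤ C) (h1 : ACC A B) (h2 : ACC B C) :
    ACC A C := by
  intro M hM hA hC
  obtain ⟨k₁, hk₁⟩ := h1 (fun k => R1inf (M k) B)
    (fun i j hij l n => inf_le_inf_right _ (hM hij l n))
    (fun k l n => le_inf (hA k l n) (hAB l n)) (fun k l n => inf_le_right)
  obtain ⟨k₂, hk₂⟩ := h2 (fun k => R1sup (M k) B)
    (fun i j hij l n => sup_le_sup_right (hM hij l n) _)
    (fun k l n => le_sup_right) (fun k l n => sup_le (hC k l n) (hBC l n))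
  refine ⟨max k₁ k₂, fun k hk => le_antisymm ?_ (hM hk)⟩
  intro l n w hw
  have e1 : R1inf (M k) B = R1inf (M (max k₁ k₂)) B :=
    (hk₁ k ((le_max_left _ _).trans hk)).trans (hk₁ _ (le_max_left _ _)).symm
  have e2 : R1sup (M k) B = R1sup (M (max k₁ k₂)) B :=
    (hk₂ k ((le_max_right _ _).trans hk)).trans (hk₂ _ (le_max_right _ _)).symm
  have hw' : w ∈ (R1sup (M (max k₁ k₂)) B).S l n := by
    rw [← e2]
    exact (le_sup_left : (M k).S l n ≤ (M k).S l n ⊔ B.S l n) hw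
  have : (B.S l n).Normal := ⟨fun x hx t => B.normal l n x hx t⟩
  obtain ⟨m, hm, b, hb, rfl⟩ := Subgroup.mem_sup_of_normal_right.mp hw'
  have hb' : b ∈ (R1inf (M k) B).S l n := by
    refine ⟨?_, hb⟩
    have h3 : b = m⁻¹ * (m * b) := by group
    have h4 : m⁻¹ * (m * b) ∈ (M k).S l n :=
      (M k).S l n |>.mul_mem (((M k).S l n).inv_mem (hM hk l n hm)) hw
    rw [← h3] at h4
    exact h4
  rw [e1] at hb'
  exact ((M (max k₁ k₂)).S l n).mul_mem hm hb'.1

/-- Section 5: layer 4. -/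
theorem layer4 (rk : ℕ → Ordinal.{0}) (hrk : Function.Injective rk) (X : Set (Finset ℕ))
    (hX : ∀ D ∈ X, IsDS rk D) : ACC (TX rk X) T4 := by
  intro M hM hA hC
  obtain ⟨k₀, hk₀⟩ := fam_dcc rk hrk X hX (fun k => DM rk X (M k))
    (fun k => DM_good rk X (M k) (hC k)) (fun i j hij s => DM_anti rk X _ _ (hM hij) s)
  exact ⟨k₀, fun k hk => (DM_sep rk X (M k₀) (M k) (hA k₀) (hM hk) (hC k)
    (fun s => (hk₀ k hk s).ge)).symm⟩

/-- Section 9. -/
theorem acc_all (rk : ℕ → Ordinal.{0}) (hrk : Function.Injective rk) (X : Set (Finset ℕ))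
    (hX : ∀ D ∈ X, IsDS rk D) (M : ℕ → TIF) (hM : Monotone M) (hXM : ∀ k, TX rk X ≤ M k) :
    ∃ k₀, ∀ k, k₀ ≤ k → M k = M k₀ := by
  have hT2 : T2 ≤ OH.Top := fun _ _ _ _ => trivial
  have h : ACC (TX rk X) Top :=
    acc_trans _ _ _ (((TX_le_T4 rk X).trans T4_le_T3).trans T3_le_T2) hT2
      (acc_trans _ _ _ ((TX_le_T4 rk X).trans T4_le_T3) T3_le_T2
        (acc_trans _ _ _ (TX_le_T4 rk X) T4_le_T3 (layer4 rk hrk X hX) layer3) layer2) layer1
  exact h M hM hXM (fun _ _ _ _ _ => trivial)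

end Pool.Agent.OHO
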