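import Pool.Agent.OH.Final
import Pool.Agent.OHO.R1
import Pool.Agent.OH.S3
import Pool.Agent.OH.TXi

set_option autoImplicit false
set_option linter.unusedSectionVars false

namespace Pool.Agent.OHO

open Pool.Agent.OH

/-! # The ordinal height is attained (for the own statement beside S01643) -/

/-- There is a strictly decreasing chain of type `α` of fully invariant subgroups above `L`. -/
def ChainQ (α : Ordinal.{0}) (L : Subgroup (FreeGroup ℕ)) : Prop :=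
  ∃ g : Ordinal.{0} → Subgroup (FreeGroup ℕ),
    (∀ γ < α, FI (g γ) ∧ L < g γ) ∧ (∀ γ δ : Ordinal.{0}, γ < δ → δ < α → g δ < g γ)

theorem finalQ (α : Ordinal.{0}) (N : Ordinal.{0} → Subgroup (FreeGroup ℕ))
    (hfi : ∀ γ ≤ α, FI (N γ)) (hstr : ∀ γ δ, γ < δ → δ ≤ α → N δ < N γ)
    (hacc : ∀ L : ℕ → Subgroup (FreeGroup ℕ), (∀ k, FI (L k)) → Monotone L →
      (∀ k, N α ≤ L k) → ∃ k₀, ∀ k, k₀ ≤ k → L k = L k₀) :
    ∃ N : Subgroup (FreeGroup ℕ), FI N ∧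
      (∀ S : Set (Subgroup (FreeGroup ℕ)), (∀ M ∈ S, FI M ∧ N < M) →
        IsChain (· ≤ ·) S →
        (∀ T ⊆ S, T.Nonempty → ∃ M ∈ T, ∀ M' ∈ T, M' ≤ M) →
        ∃ f : Subgroup (FreeGroup ℕ) → Ordinal.{0},
          (∀ A ∈ S, f A < α) ∧ (∀ A ∈ S, ∀ B ∈ S, B < A → f A < f B)) ∧
      ChainQ α N := by
  -- a maximal element
  have hmax : ∃ L : Subgroup (FreeGroup ℕ), (FI L ∧ N α ≤ L ∧ ChainQ α L) ∧
      ∀ L', FI L' → L < L' → ¬ ChainQ α L' := by
    by_contra hcon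
    push Not at hcon
    have hstep : ∀ L : {L : Subgroup (FreeGroup ℕ) // FI L ∧ N α ≤ L ∧ ChainQ α L},
        ∃ L' : {L : Subgroup (FreeGroup ℕ) // FI L ∧ N α ≤ L ∧ ChainQ α L},
          (L : Subgroup (FreeGroup ℕ)) < L' := by
      rintro ⟨L, hL⟩
      obtain ⟨L', h1, h2, h3⟩ := hcon L hL
      exact ⟨⟨L', h1, hL.2.1.trans h2.le, h3⟩, h2⟩
    choose nx hnx using hstep
    have h0 : FI (N α) ∧ N α ≤ N α ∧ ChainQ α (N α) :=
      ⟨hfi α le_rfl, le_rfl, N, fun γ hγ => ⟨hfi γ hγ.le, hstr γ α hγ le_rfl⟩,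
        fun γ δ h1 h2 => hstr γ δ h1 h2.le⟩
    let sq : ℕ → {L : Subgroup (FreeGroup ℕ) // FI L ∧ N α ≤ L ∧ ChainQ α L} :=
      fun k => nx^[k] ⟨N α, h0⟩
    have hsq : ∀ k, (sq k : Subgroup (FreeGroup ℕ)) < sq (k + 1) := by
      intro k
      have : sq (k + 1) = nx (sq k) := Function.iterate_succ_apply' _ _ _
      rw [this]
      exact hnx _
    have hsm : StrictMono fun k => (sq k : Subgroup (FreeGroup ℕ)) := strictMono_nat_of_lt_succ hsq
    obtain ⟨k₀, hk₀⟩ := hacc (fun k => (sq k : Subgroup (FreeGroup ℕ))) (fun k => (sq k).2.1)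
      hsm.monotone (fun k => (sq k).2.2.1)
    exact absurd (hk₀ (k₀ + 1) (Nat.le_succ _)) (hsq k₀).ne'
  obtain ⟨N', ⟨hN'fi, hN'le, hN'P⟩, hN'max⟩ := hmax
  refine ⟨N', hN'fi, ?_, hN'P⟩
  intro S hS hchain hT
  -- the relation
  let R : Subgroup (FreeGroup ℕ) → Subgroup (FreeGroup ℕ) → Prop :=
    fun B A => A ∈ S ∧ B ∈ S ∧ A < B
  have hwf : WellFounded R := by
    rw [WellFounded.wellFounded_iff_has_min]
    intro T hTne
    by_cases h : (T ∩ S).Nonempty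
    · obtain ⟨A, hA, hAmax⟩ := hT (T ∩ S) Set.inter_subset_right h
      refine ⟨A, hA.1, fun B hB hR => ?_⟩
      exact absurd (hAmax B ⟨hB, hR.2.1⟩) hR.2.2.not_ge
    · obtain ⟨A, hA⟩ := hTne
      refine ⟨A, hA, fun B _ hR => h ⟨A, hA, hR.1⟩⟩
  have : IsWellFounded _ R := ⟨hwf⟩
  let f : Subgroup (FreeGroup ℕ) → Ordinal.{0} := fun A => IsWellFounded.rank R A
  have hf : ∀ A ∈ S, ∀ B ∈ S, B < A → f A < f B := by
    intro A hA B hB hBA
    exact IsWellFounded.rank_lt_of_rel (r := R) ⟨hB, hA, hBA⟩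
  have hrk : ∀ A : Subgroup (FreeGroup ℕ), ∀ γ : Ordinal.{0}, γ < f A →
      ∃ B ∈ S, A < B ∧ f B = γ := by
    intro A
    induction A using hwf.induction with
    | _ A ih =>
      intro γ hγ
      have h1 : f A = ⨆ b : { b // R b A }, Order.succ (f b) := IsWellFounded.rank_eq R A
      rw [h1, Ordinal.lt_iSup_iff] at hγ
      obtain ⟨⟨b, hb⟩, h2⟩ := hγ
      rw [Order.lt_succ_iff] at h2
      rcases h2.eq_or_lt with h3 | h3
      · exact ⟨b, hb.2.1, hb.2.2, h3.symm⟩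
      · obtain ⟨B, hB1, hB2, hB3⟩ := ih b hb γ h3
        exact ⟨B, hB1, hb.2.2.trans hB2, hB3⟩
  refine ⟨f, ?_, hf⟩
  intro A hA
  by_contra hlt
  rw [not_lt] at hlt
  -- `A` has the chain property
  apply hN'max A (hS A hA).1 (hS A hA).2
  have hex : ∀ γ : Ordinal.{0}, γ < α → ∃ B ∈ S, A < B ∧ f B = γ := by
    intro γ hγ
    exact hrk A γ (hγ.trans_le hlt)
  choose! g hg using hex
  refine ⟨g, fun γ hγ => ⟨(hS _ (hg γ hγ).1).1, (hg γ hγ).2.1⟩, fun γ δ h1 h2 => ?_⟩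
  have hγ := hg γ (h1.trans h2)
  have hδ := hg δ h2
  rcases hchain.total hγ.1 hδ.1 with h | h
  · exfalso
    rcases h.lt_or_eq with h3 | h3
    · have := hf _ hδ.1 _ hγ.1 h3
      rw [hγ.2.2, hδ.2.2] at this
      exact absurd h1 this.not_gt
    · have := congrArg f h3
      rw [hγ.2.2, hδ.2.2] at this
      exact h1.ne this
  · rcases h.lt_or_eq with h3 | h3
    · exact h3
    · have := congrArg f h3
      rw [hγ.2.2, hδ.2.2] at this
      exact absurd this h1.ne'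

/-- A well-order of `ℕ` (given by an injective rank function) whose ranks exhaust `α`. -/
theorem exists_rk (α : Ordinal.{0}) (hα : α.card ≤ Cardinal.aleph0) :
    ∃ rk : ℕ → Ordinal.{0}, Function.Injective rk ∧ ∀ g < α, ∃ a, rk a = g := by
  have hc : Countable (Set.Iio (α + Ordinal.omega0)) := by
    rw [← Cardinal.mk_le_aleph0_iff, Cardinal.mk_Iio_ordinal, Ordinal.card_add,
      Ordinal.card_omega0, Cardinal.lift_le_aleph0]
    exact Cardinal.add_le_aleph0.mpr ⟨hα, le_rfl⟩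
  have hi : Infinite (Set.Iio (α + Ordinal.omega0)) := by
    rw [Cardinal.infinite_iff, Cardinal.mk_Iio_ordinal, Ordinal.card_add, Ordinal.card_omega0,
      Cardinal.aleph0_le_lift]
    exact le_add_self
  obtain ⟨e⟩ := nonempty_equiv_of_countable (α := ℕ) (β := Set.Iio (α + Ordinal.omega0))
  refine ⟨fun k => (e k).1, fun a b h => e.injective (Subtype.ext h), fun g hg => ?_⟩
  exact ⟨e.symm ⟨g, hg.trans_le (le_add_right le_rfl)⟩, by simp⟩

theorem own_core (α : Ordinal.{0}) (hα : α.card ≤ Cardinal.aleph0) :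
    ∃ N : Subgroup (FreeGroup ℕ), FI N ∧
      (∀ S : Set (Subgroup (FreeGroup ℕ)), (∀ M ∈ S, FI M ∧ N < M) →
        IsChain (· ≤ ·) S →
        (∀ T ⊆ S, T.Nonempty → ∃ M ∈ T, ∀ M' ∈ T, M' ≤ M) →
        ∃ f : Subgroup (FreeGroup ℕ) → Ordinal.{0},
          (∀ A ∈ S, f A < α) ∧ (∀ A ∈ S, ∀ B ∈ S, B < A → f A < f B)) ∧
      ChainQ α N := by
  obtain ⟨rk, hrk, hsurj⟩ := exists_rk α hα
  refine finalQ α (fun γ => NN (TX rk (Xg rk γ))) (fun γ _ => NN_fi _) ?_ ?_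
  · intro γ δ hγδ hδ
    obtain ⟨a, rfl⟩ := hsurj γ (hγδ.trans_le hδ)
    refine NN_strict (fun l n => TX_fin2 rk _ l n) (fun l n => TX_fin2 rk _ l n) ?_
    refine lt_of_le_not_ge (TX_anti rk _ _ ?_) (TX_strict rk hrk a δ hγδ)
    rintro D ⟨hD, hD'⟩
    exact ⟨hD, fun b hb => (hD' b hb).trans hγδ⟩
  · intro L hfi hmono hL
    exact NN_acc (fun l n => TX_fin2 rk _ l n)
      (fun K hK hXK => acc_all rk hrk (Xg rk α) (fun D hD => hD.1) K hK hXK) L hfi hmono hL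

end Pool.Agent.OHO
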